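import Pool.Agent.Work.MP_b10815_co_flat.Upper
import Pool.Agent.Work.MP_b10815_co_flat.Count

set_option autoImplicit false

namespace Pool.Agent.Results.MP_b10815_co.FlatnessEquiv

open Pool.Agent.Work.MP_b10815_co Pool.Agent.Work.MP_b10815_co_flat

/-- Two-sided comparison of `c(d)` with the flatness constant.
(1) `c(d) ≤ (3 Flt(d) + 1) / 2` for every `d`: if every convex body in `ℝ^d` without integer points
has lattice width at most `F`, then `(3 F + 1) / 2` is admissible in dimension `d`.
(2) Conversely `limsup c(d) / d ≥ Flt(n) / (2 n)` for every `n`: if `C d` is admissible in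
dimension `d` for all large `d`, then every convex body in `ℝ^n` without integer points has lattice
width at most `2 C n`. -/
theorem result :
    (∀ (d : ℕ), 1 ≤ d → ∀ F : ℝ, FlatnessBound d F → Admissible d ((3 * F + 1) / 2)) ∧
    (∀ C : ℝ, (∀ᶠ d : ℕ in Filter.atTop, Admissible d (C * d)) →
      ∀ n : ℕ, 1 ≤ n → FlatnessBound n (2 * C * n)) :=
  ⟨fun d hd F hF => upper d hd F hF, fun C hC n hn => lower C hC n hn⟩

end Pool.Agent.Results.MP_b10815_co.FlatnessEquiv
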