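import Pool.Agent.Work.MP_b10815_co_flt.Main

set_option autoImplicit false

namespace Pool.Agent.Results.MP_b10815_co.NearLinearUpper

open Pool.Agent.Work.MP_b10815_co

/-- `c(d) ≤ C d (log (d+1))^8` for an absolute constant `C` and all `d ≥ 1`: the constant `c(d)` of
Brass, Moser and Pach grows linearly up to logarithmic factors. -/
theorem result : ∃ C : ℝ, 0 < C ∧ ∀ d : ℕ, 1 ≤ d →
    Admissible d (C * d * Real.log (d + 1) ^ 8) :=
  Pool.Agent.Work.MP_b10815_co_flt.upper_near_linear

end Pool.Agent.Results.MP_b10815_co.NearLinearUpper
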