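import Pool.Agent.Work.MP_b10815_co_helper58.Main

set_option autoImplicit false

namespace Pool.Agent.Results.MP_b10815_co.PlaneExact

open Pool.Agent.Work.MP_b10815_co

/-- `c(2) = 5/3`: a real number `c` is admissible in the plane exactly when `5 / 3 ≤ c`. -/
theorem result (c : ℝ) : Admissible 2 c ↔ 5 / 3 ≤ c :=
  Pool.Agent.Work.MP_b10815_co_helper58.plane_exact c

end Pool.Agent.Results.MP_b10815_co.PlaneExact
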