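import Pool.Agent.Work.MP_b10815_sym.Final

set_option autoImplicit false

namespace Pool.Agent.Results.MP_b10815_co.SymmetryBlocks

open Pool.Agent.Work.MP_b10815_sym

/-- Write `c_b(d)` for the smallest constant which is admissible in dimension `d` for the convex
bodies that are invariant under the changes of sign of the blocks of a partition of the
coordinates into blocks of size at most `b` (`b = 1`: the unconditional bodies, `b = d`: the
centrally symmetric bodies).  Then `(b - 1) / 4 ≤ c_b(d) ≤ C b (log (b + 1)) ^ 8` for all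
`1 ≤ b ≤ d`, with an absolute constant `C`, and `c_1(d) = 2 - 1 / d`. -/
theorem result :
    (∃ C : ℝ, 0 < C ∧ ∀ d b : ℕ, 1 ≤ b → b ≤ d →
      AdmissibleFor d (BlockUncond b) (C * b * Real.log (b + 1) ^ 8)) ∧
    (∀ (d b : ℕ) (c : ℝ), 1 ≤ b → b ≤ d →
      AdmissibleFor d (BlockUncond b) c → ((b : ℝ) - 1) / 4 ≤ c) ∧
    (∀ (d : ℕ) (c : ℝ), 1 ≤ d →
      (AdmissibleFor d (BlockUncond 1) c ↔ 2 - 1 / (d : ℝ) ≤ c)) :=
  ⟨upper_log, lower_block, exact_one⟩

end Pool.Agent.Results.MP_b10815_co.SymmetryBlocks
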